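import Pool.Agent.L7h2.QS.Dens2
import Pool.Agent.L7h2.QS.Upper

set_option autoImplicit false

/-!
# Upper bounds for the number of cuban primes, in residue classes, in almost all short intervals

For an individual interval `(N, N + X ^ h]` the sieve gives at most `(4 / h + δ)` times the number predicted
by Hardy and Littlewood for the `n` with `(u n + v + 1) ^ 3 - (u n + v) ^ 3` prime. Here the constant is
`4 / t + δ` for all but at most `X ^ (2 t - h + ε)` of the `N ≤ X`, for every `1 / 2 ≤ t < 1`: the constant is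
`8 / (1 + h) + δ` for almost all `N`, and `8 + δ` for all but `X ^ (1 - h + ε)` of them, however small
`h > 0` is.
-/

namespace Pool.Agent.Results.MP_22d6bb_nt.AlmostAllShortUpper

open Finset Filter Topology

/-- the product `∏_{p > 3, p ∣ u} p / (p - 1)` -/
noncomputable def dvdProd (u : ℕ) : ℝ := ∏ p ∈ u.primeFactors.filter (fun p => 3 < p), (p : ℝ) / (p - 1)

/-- the partial product `∏_{3 < p ≤ z, p ∤ u} (1 - (-3 / p) / (p - 1))` -/
noncomputable def partialC (u z : ℕ) : ℝ :=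
  ∏ p ∈ (Icc 4 z).filter (fun p : ℕ => p.Prime ∧ ¬ p ∣ u), (1 - (jacobiSym (-3) p : ℝ) / (p - 1))

/-- The number of the integers `n` in `(N, N + H]` such that `k = u n + v` gives a (positive) prime
`(k + 1) ^ 3 - k ^ 3`. -/
def cubanCount (u : ℕ) (v : ℤ) (N H : ℕ) : ℕ :=
  ((Ioc N (N + H)).filter (fun n : ℕ => ((u * n + v + 1) ^ 3 - (u * n + v) ^ 3 : ℤ).toNat.Prime)).card

open Classical in
/-- **Cuban primes, in residue classes, in almost all short intervals.** Let `u ≥ 1` and `v` be integers with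
`3 v ^ 2 + 3 v + 1` coprime to `u`. The product `∏_{p > 3, p ∤ u} (1 - (-3 / p) / (p - 1))` converges to a
number `S > 0`, and for all `0 < h ≤ 1`, `1 / 2 ≤ t < 1` and `δ, ε > 0` and all large `X` the number of the
`n` in `(N, N + X ^ h]` such that `k = u n + v` gives a prime `(k + 1) ^ 3 - k ^ 3` is at most `4 / t + δ`
times the predicted number `(3 / 2) S ∏_{p > 3, p ∣ u} p / (p - 1) X ^ h / log X`, for all but at most
`X ^ (2 t - h + ε)` of the integers `1 ≤ N ≤ X`. -/
theorem result (u : ℕ) (v : ℤ) (hu : 1 ≤ u) (huv : IsCoprime (u : ℤ) (3 * v ^ 2 + 3 * v + 1)) :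
    ∃ S : ℝ, 0 < S ∧ Tendsto (fun z => partialC u z) atTop (𝓝 S) ∧
    ∀ h t δ ε : ℝ, 0 < h → h ≤ 1 → 1 / 2 ≤ t → t < 1 → 0 < δ → 0 < ε →
      ∀ᶠ X : ℕ in atTop, (((Icc 1 X).filter (fun N : ℕ =>
        (4 / t + δ) * (3 / 2 * S * dvdProd u * ((X : ℝ) ^ h / Real.log X)) <
          (cubanCount u v N ⌊(X : ℝ) ^ h⌋₊ : ℝ))).card : ℝ) ≤ (X : ℝ) ^ (2 * t - h + ε) := by
  have hu0 : (u : ℤ) ≠ 0 := by exact_mod_cast (by omega : u ≠ 0)
  set a : ℤ := 3 * (u : ℤ) ^ 2 with ha
  set b : ℤ := 3 * u * (2 * v + 1) with hb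
  set c : ℤ := 3 * v ^ 2 + 3 * v + 1 with hc
  have hdisc : b ^ 2 - 4 * a * c = -3 * (u : ℤ) ^ 2 := by
    rw [ha, hb, hc]
    ring
  have ha0 : 0 < a := by positivity
  have hQ : Pool.Agent.L7h2.QS.Adm a b c := by
    refine ⟨ha0.ne', ?_, ?_, ?_⟩
    · rintro p hp ⟨h1, h2, h3⟩
      have hpZ : Prime (p : ℤ) := Nat.prime_iff_prime_int.1 hp
      rcases hpZ.dvd_or_dvd h1 with h4 | h4
      · have h5 : (p : ℤ) ∣ 1 := by
          have e : (1 : ℤ) = c - 3 * (v ^ 2 + v) := by rw [hc]; ring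
          rw [e]
          exact dvd_sub h3 (h4.mul_right _)
        exact hpZ.not_dvd_one h5
      · have h5 : (p : ℤ) ∣ u := hpZ.dvd_of_dvd_pow h4
        exact hpZ.not_isUnit (huv.isUnit_of_dvd' h5 h3)
    · rintro ⟨-, h2⟩
      have e : c = 3 * (v * (v + 1)) + 1 := by rw [hc]; ring
      have h3 : (2 : ℤ) ∣ v * (v + 1) := (Int.even_mul_succ_self v).two_dvd
      rw [e] at h2
      omega
    · rw [hdisc]
      rintro ⟨r, hr⟩
      nlinarith [mul_self_nonneg r, (by positivity : (0 : ℤ) < (u : ℤ) ^ 2)]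
  have heps : Pool.Agent.L7h2.QS.eps a b = 2 := by
    unfold Pool.Agent.L7h2.QS.eps
    rw [if_pos]
    have e : a + b = 3 * (u * (u + 1)) + 2 * (3 * u * v) := by rw [ha, hb]; ring
    rw [e]
    exact dvd_add ((Int.even_mul_succ_self (u : ℤ)).two_dvd.mul_left 3) (dvd_mul_right 2 _)
  have hgcd : ∀ p : ℕ, p.Prime → (p ∣ Int.gcd a b ↔ p = 3 ∨ p ∣ u) := by
    intro p hp
    have hpZ : Prime (p : ℤ) := Nat.prime_iff_prime_int.1 hp
    constructor
    · intro h1
      have h2 : (p : ℤ) ∣ a := (Int.natCast_dvd_natCast.2 h1).trans (Int.gcd_dvd_left a b)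
      rcases hpZ.dvd_or_dvd h2 with h4 | h4
      · left
        have h5 : p ∣ 3 := by exact_mod_cast h4
        exact (Nat.prime_dvd_prime_iff_eq hp Nat.prime_three).1 h5
      · right
        exact_mod_cast hpZ.dvd_of_dvd_pow h4
    · intro h1
      have h2 : (p : ℤ) ∣ (Int.gcd a b : ℤ) := by
        apply Int.dvd_coe_gcd
        · rcases h1 with h1 | h1
          · rw [h1, ha]
            exact dvd_mul_right _ _
          · rw [ha]
            exact Dvd.dvd.mul_left (dvd_pow (Int.natCast_dvd_natCast.2 h1) two_ne_zero) 3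
        · rcases h1 with h1 | h1
          · rw [h1, hb]
            exact ⟨u * (2 * v + 1), by push_cast; ring⟩
          · rw [hb]
            exact Dvd.dvd.mul_right (Dvd.dvd.mul_left (Int.natCast_dvd_natCast.2 h1) 3) _
      exact_mod_cast h2
  have hgp : Pool.Agent.L7h2.QS.gcdProd a b = 3 / 2 * dvdProd u := by
    unfold Pool.Agent.L7h2.QS.gcdProd dvdProd
    have h3 : 3 ∉ u.primeFactors.filter (fun p => 3 < p) := by simp
    have hset : (Int.gcd a b).primeFactors.filter (fun p => 2 < p) =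
        insert 3 (u.primeFactors.filter (fun p => 3 < p)) := by
      ext p
      rw [mem_insert, mem_filter, mem_filter, Nat.mem_primeFactors, Nat.mem_primeFactors]
      constructor
      · rintro ⟨⟨h1, h2, -⟩, h4⟩
        by_cases h5 : p = 3
        · exact Or.inl h5
        · rcases (hgcd p h1).1 h2 with h6 | h6
          · exact Or.inl h6
          · exact Or.inr ⟨⟨h1, h6, by omega⟩, by omega⟩
      · have hne : Int.gcd a b ≠ 0 := fun h0 => ha0.ne' (Int.gcd_eq_zero_iff.1 h0).1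
        rintro (h1 | ⟨⟨h1, h2, -⟩, h4⟩)
        · rw [h1]
          exact ⟨⟨Nat.prime_three, (hgcd 3 Nat.prime_three).2 (Or.inl rfl), hne⟩, by norm_num⟩
        · exact ⟨⟨h1, (hgcd p h1).2 (Or.inr h2), hne⟩, by omega⟩
    rw [hset, prod_insert h3]
    norm_num
  have hpart : ∀ z : ℕ, Pool.Agent.L7h2.QS.partialC a b c z = partialC u z := by
    intro z
    unfold Pool.Agent.L7h2.QS.partialC partialC
    have hset : (Icc 3 z).filter (fun p : ℕ => p.Prime ∧ ¬ (p : ℤ) ∣ a) =
        (Icc 4 z).filter (fun p : ℕ => p.Prime ∧ ¬ p ∣ u) := by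
      ext p
      rw [mem_filter, mem_filter, mem_Icc, mem_Icc]
      constructor
      · rintro ⟨⟨h1, h2⟩, h3, h4⟩
        have h5 : p ≠ 3 := by
          rintro rfl
          exact h4 (by rw [ha]; exact dvd_mul_right _ _)
        refine ⟨⟨by omega, h2⟩, h3, fun h6 => h4 ?_⟩
        rw [ha]
        exact Dvd.dvd.mul_left (dvd_pow (Int.natCast_dvd_natCast.2 h6) two_ne_zero) 3
      · rintro ⟨⟨h1, h2⟩, h3, h4⟩
        refine ⟨⟨by omega, h2⟩, h3, fun h6 => ?_⟩
        have hpZ : Prime (p : ℤ) := Nat.prime_iff_prime_int.1 h3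
        rcases hpZ.dvd_or_dvd h6 with h7 | h7
        · have h5 : p ∣ 3 := by exact_mod_cast h7
          have := Nat.le_of_dvd (by norm_num) h5
          omega
        · exact h4 (by exact_mod_cast hpZ.dvd_of_dvd_pow h7)
    rw [hset]
    apply prod_congr rfl
    intro p hp
    rw [mem_filter, mem_Icc] at hp
    obtain ⟨⟨h1, h2⟩, h3, h4⟩ := hp
    rw [hdisc, jacobiSym.mul_left, jacobiSym.sq_one', mul_one]
    rw [Int.gcd_natCast_natCast]
    exact ((Nat.Prime.coprime_iff_not_dvd h3).2 h4).symm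
  obtain ⟨S, hS, hS1, hS2⟩ := Pool.Agent.L7h2.QS.partialC_conv hQ
  have he := Pool.Agent.L7h2.QS.eps_pos a b
  have hg := Pool.Agent.L7h2.QS.gcdProd_pos a b
  refine ⟨S, hS, ?_, ?_⟩
  · simp_rw [hpart] at hS1
    exact hS1
  intro h t δ ε a1 a2 a3 a4 a5 a6
  have hmain := Pool.Agent.L7h2.QS.mainUp hQ ha0
    (Pool.Agent.L7h2.QS.eps a b * S * Pool.Agent.L7h2.QS.gcdProd a b) (mul_pos (mul_pos he hS) hg) hS2
    h t δ ε a1 a2 a3 a4 a5 a6
  rw [heps, hgp] at hmain
  have e0 : ∀ x : ℤ, (u * x + v + 1) ^ 3 - (u * x + v) ^ 3 = a * x ^ 2 + b * x + c := fun x => by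
    rw [ha, hb, hc]
    ring
  have ecnt : ∀ N H : ℕ, cubanCount u v N H = ((Ioc N (N + H)).filter
      (fun n : ℕ => (a * (n : ℤ) ^ 2 + b * n + c).toNat.Prime)).card := by
    intro N H
    unfold cubanCount
    simp_rw [e0]
  have e3 : (2 * S * (3 / 2 * dvdProd u) / 2 : ℝ) = 3 / 2 * S * dvdProd u := by ring
  rw [e3] at hmain
  simp_rw [ecnt]
  exact hmain

end Pool.Agent.Results.MP_22d6bb_nt.AlmostAllShortUpper
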