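import Pool.Agent.R498.MT.QSys

set_option autoImplicit false

/-!
# Clusters of almost primes which are differences of consecutive cubes, in narrow progressions
-/

namespace Pool.Agent.Results.MP_22d6bb_nt.ClustersOfCubes

open Filter

/-- `n ≠ 0` is up to the sign a product of at most `r` primes, counted with multiplicity, all of them at
least `w`. -/
def AlmostPrime (r : ℕ) (w : ℝ) (n : ℤ) : Prop :=
  n ≠ 0 ∧ n.natAbs.primeFactorsList.length ≤ r ∧ ∀ q : ℕ, q.Prime → (q : ℤ) ∣ n → w ≤ q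

/-- **A theorem of Maynard-Tao type for differences of consecutive cubes.** Let `u ≥ 1` and `v` be integers
and let `f` be a nonzero polynomial with integer coefficients such that
`((u x + v + 1) ^ 3 - (u x + v) ^ 3) f(x)` has no fixed prime divisor.  For every `m` there is `K` such
that, for every finite set `S` of at least `K` nonnegative integers, there are `r` and `δ > 0`, and for
every `l` there is an exponent `B`, such that for all large `N` there are a subset `H` of `S` with `m`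
elements and an arithmetic progression `n, n + d, ..., n + (l - 1) d` in `(N, N + N ^ (3 / 4)]` with
difference `1 ≤ d ≤ (log N) ^ B` such that for all its terms `y` and all `h ∈ H`, with `x = y + h`: the
difference `(u x + v + 1) ^ 3 - (u x + v) ^ 3` of consecutive cubes has at most three prime factors, all
of them at least `N ^ (73 / 400)`, and `f(x)` has at most `r` prime factors, all of them at least `N ^ δ`.
-/
theorem result (u v : ℤ) (hu : 1 ≤ u) (f : Polynomial ℤ) (hf : f ≠ 0)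
    (hadm : ∀ p : ℕ, p.Prime → ∃ x : ℤ, ¬ (p : ℤ) ∣ ((u * x + v + 1) ^ 3 - (u * x + v) ^ 3) * f.eval x)
    (m : ℕ) :
    ∃ K : ℕ, ∀ S : Finset ℕ, K ≤ S.card → ∃ (r : ℕ) (δ : ℝ), 0 < δ ∧ ∀ l : ℕ, ∃ B : ℕ,
      ∀ᶠ N : ℕ in atTop, ∃ H ⊆ S, H.card = m ∧ ∃ n d : ℕ, 1 ≤ d ∧ (d : ℝ) ≤ Real.log N ^ B ∧
      ∀ j < l, N < n + j * d ∧ ((n + j * d : ℕ) : ℝ) ≤ N + (N : ℝ) ^ (3 / 4 : ℝ) ∧
        ∀ h ∈ H, ∀ x : ℤ, x = (n + j * d + h : ℕ) →
          AlmostPrime 3 ((N : ℝ) ^ (73 / 400 : ℝ)) ((u * x + v + 1) ^ 3 - (u * x + v) ^ 3) ∧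
          AlmostPrime r ((N : ℝ) ^ δ) (f.eval x) := by
  have e0 : ∀ x : ℤ, (u * x + v + 1) ^ 3 - (u * x + v) ^ 3 =
      3 * u ^ 2 * x ^ 2 + (3 * u * (2 * v + 1)) * x + (3 * v ^ 2 + 3 * v + 1) := fun x => by ring
  have hdisc : (3 * u * (2 * v + 1)) ^ 2 - 4 * (3 * u ^ 2) * (3 * v ^ 2 + 3 * v + 1) = -(3 * u ^ 2) := by
    ring
  obtain ⟨K, hK⟩ := Pool.Agent.R498.MT.quad_sys (3 * u ^ 2) (3 * u * (2 * v + 1)) (3 * v ^ 2 + 3 * v + 1)
    (by positivity)
    (by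
      rw [hdisc]
      rintro ⟨r, hr⟩
      nlinarith [mul_self_nonneg r, mul_pos (show (0 : ℤ) < u by omega) (show (0 : ℤ) < u by omega)])
    f hf
    (fun p hp => by
      obtain ⟨x, hx⟩ := hadm p hp
      refine ⟨x, fun h => hx ?_⟩
      rwa [e0 x]) m
  obtain ⟨n₀, hn₀⟩ := Pool.Agent.Y677.RSZ.ne_zero_ev f hf
  refine ⟨K, fun S hS => ?_⟩
  obtain ⟨r, δ, hδ, hmain⟩ := hK S hS
  refine ⟨r, δ, hδ, fun l => ?_⟩
  obtain ⟨B, hB⟩ := hmain l
  refine ⟨B, ?_⟩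
  filter_upwards [hB, eventually_ge_atTop n₀] with N hN hN2
  obtain ⟨H, hH, hHc, n, d, h1, h2, h3⟩ := hN
  refine ⟨H, hH, hHc, n, d, h1, h2, fun j hj => ?_⟩
  obtain ⟨h4, h5, h6⟩ := h3 j hj
  refine ⟨h4, h5, fun h hh x hx => ?_⟩
  obtain ⟨g1, g2, g3, g4⟩ := h6 h hh
  rw [← hx] at g1 g2 g3 g4
  rw [e0 x]
  refine ⟨⟨?_, g1, g2⟩, ?_, g3, g4⟩
  · rw [← e0 x]
    intro h0
    have h7 : 4 * ((u * x + v + 1) ^ 3 - (u * x + v) ^ 3) = 3 * (2 * (u * x + v) + 1) ^ 2 + 1 := by ring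
    rw [h0] at h7
    nlinarith [sq_nonneg (2 * (u * x + v) + 1)]
  · rw [hx]
    exact hn₀ _ (by omega)

end Pool.Agent.Results.MP_22d6bb_nt.ClustersOfCubes
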