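import Pool.Agent.L7h27.AP.LowG

set_option autoImplicit false

/-!
# Almost primes which are differences of consecutive cubes, in almost all residue classes, for every
modulus

For all large `X` and EVERY modulus `q ≤ X ^ (1 - ε)` almost all residue classes `a` modulo `q` with
`(a + 1) ^ 3 - a ^ 3` prime to `q` contain numbers `k ≤ X` such that `(k + 1) ^ 3 - k ^ 3` has at most
`5` prime factors, in at least the expected order of magnitude; for `q ≤ X ^ (231 / 250 - ε)` the number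
`5` can be replaced by `4`, and for `q ≤ X ^ (11 / 20 - ε)` by `3`. The same holds in every interval.
-/

namespace Pool.Agent.Results.MP_22d6bb_nt.EveryModulusAlmostPrimes

open Finset Filter

open Classical in
/-- the number of the integers `k ≡ a` modulo `q` in `(N, N + M]` such that the difference
`(k + 1) ^ 3 - k ^ 3` of consecutive cubes has at most `r` prime factors, counted with multiplicity, all
of them at least `w` (`0 ≤ a < q`) -/
noncomputable def almostCubanCount (r : ℕ) (w : ℝ) (N M q a : ℕ) : ℕ :=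
  ((Ioc N (N + M)).filter (fun k : ℕ => k % q = a ∧
    ((k + 1) ^ 3 - k ^ 3).primeFactorsList.length ≤ r ∧
    ∀ p : ℕ, p.Prime → p ∣ (k + 1) ^ 3 - k ^ 3 → w ≤ p)).card

/-- the number of the solutions of `(m + 1) ^ 3 - m ^ 3 ≡ 0` modulo `p` -/
def rho (p : ℕ) : ℕ := ((range p).filter (fun m : ℕ => p ∣ (m + 1) ^ 3 - m ^ 3)).card

/-- the factor `∏ (1 - ρ(p) / p)⁻¹`, over the primes `p` dividing `q`, of the conjectured number of
cuban primes in the classes `a` modulo `q` with `(a + 1) ^ 3 - a ^ 3` prime to `q` -/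
noncomputable def localFactor (q : ℕ) : ℝ := ∏ p ∈ q.primeFactors, (1 - (rho p : ℝ) / p)⁻¹

theorem cub (k : ℕ) : (k + 1) ^ 3 - k ^ 3 = 3 * k ^ 2 + 3 * k + 1 := by
  have : (k + 1) ^ 3 = k ^ 3 + (3 * k ^ 2 + 3 * k + 1) := by ring
  omega

theorem cubZ (k : ℕ) : (3 * (k : ℤ) ^ 2 + 3 * k + 1) = (((k + 1) ^ 3 - k ^ 3 : ℕ) : ℤ) := by
  rw [cub]
  push_cast
  ring

open Classical in
/-- **Almost primes `(k + 1) ^ 3 - k ^ 3` in almost all residue classes.** Let `r = 5`, `1 / 2 ≤ t < 1`,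
`z = 2 t / 5`, or `r = 4`, `269 / 500 ≤ t < 1`, `z = t / 4`, or `r = 3`, `29 / 40 ≤ t < 1`, `z = t / 4`.
For every `ε > 0` there is `δ > 0` such that, for all large `X`, for EVERY modulus `q ≤ X` and EVERY
interval `(N, N + M]` with `N, M ≤ X`, for all but at most
`((M + X ^ (2 t)) (q / M) ^ 2 + (q / M) X ^ (24 t / 25)) X ^ ε` of the residue classes `a` modulo `q` with
`(a + 1) ^ 3 - a ^ 3` prime to `q` the number of the `k ≡ a` modulo `q` in the interval such that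
`(k + 1) ^ 3 - k ^ 3` has at most `r` prime factors, all at least `X ^ z`, is at least
`δ ∏_{p ∣ q} (1 - ρ(p) / p)⁻¹ (M / q) / log X`. -/
theorem result (r : ℕ) (t z : ℝ)
    (hpar : (r = 5 ∧ 1 / 2 ≤ t ∧ z = 2 / 5 * t) ∨ (r = 4 ∧ 269 / 500 ≤ t ∧ z = t / 4) ∨
      (r = 3 ∧ 29 / 40 ≤ t ∧ z = t / 4)) (ht : t < 1) (ε : ℝ) (hε : 0 < ε) :
    ∃ δ : ℝ, 0 < δ ∧ ∀ᶠ X : ℕ in atTop, ∀ N M q : ℕ, N ≤ X → 1 ≤ M → M ≤ X → 1 ≤ q → q ≤ X →
      (((range q).filter (fun a : ℕ => ((a + 1) ^ 3 - a ^ 3).Coprime q ∧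
        (almostCubanCount r ((X : ℝ) ^ z) N M q a : ℝ) <
          δ * (localFactor q * ((M : ℝ) / q) / Real.log X))).card : ℝ) ≤
      ((M + (X : ℝ) ^ (2 * t)) * ((q : ℝ) / M) ^ 2 + (q : ℝ) / M * (X : ℝ) ^ (24 / 25 * t)) *
        (X : ℝ) ^ ε := by
  have hQ : Pool.Agent.L7h2.QS.Adm 3 3 1 := by
    refine ⟨by norm_num, ?_, by norm_num, ?_⟩
    · rintro p hp ⟨-, -, h3⟩
      exact (Nat.prime_iff_prime_int.1 hp).not_dvd_one h3
    · rintro ⟨x, hx⟩
      nlinarith [mul_self_nonneg x]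
  obtain ⟨δ, hδ, h1⟩ := Pool.Agent.L7h27.AP.finAllWG hQ r t z hpar ht ε hε
  refine ⟨δ, hδ, ?_⟩
  have hlf : ∀ q : ℕ, Pool.Agent.L7h27.AP.lfG (Pool.Agent.R498.MT.QG 3 3 1) q = localFactor q := by
    intro q
    unfold Pool.Agent.L7h27.AP.lfG localFactor
    refine prod_congr rfl (fun p _ => ?_)
    congr 3
    rw [Pool.Agent.Y882.PX.ro_eq]
    unfold rho
    congr 2
    apply filter_congr
    intro m _
    rw [Pool.Agent.R498.MT.QG_eval, add_zero, cubZ]
    exact Int.natCast_dvd_natCast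
  have hpc : ∀ (w : ℝ) (N M q a : ℕ),
      Pool.Agent.L7h27.AP.apcG 3 3 1 r w N M q a = almostCubanCount r w N M q a := by
    intro w N M q a
    unfold Pool.Agent.L7h27.AP.apcG almostCubanCount Pool.Agent.L7h27.AP.SC
    rw [filter_filter]
    congr 1
    apply filter_congr
    intro k _
    rw [cubZ, Int.natAbs_natCast]
    constructor
    · rintro ⟨u1, u2, u3⟩
      exact ⟨u1, u2, fun p hp hd => u3 p hp (Int.natCast_dvd_natCast.2 hd)⟩
    · rintro ⟨u1, u2, u3⟩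
      exact ⟨u1, u2, fun p hp hd => u3 p hp (Int.natCast_dvd_natCast.1 hd)⟩
  have had : ∀ q a : ℕ, ((a + 1) ^ 3 - a ^ 3).Coprime q →
      ∀ p : ℕ, p.Prime → p ∣ q → ¬ (p : ℤ) ∣ 3 * (a : ℤ) ^ 2 + 3 * a + 1 := by
    intro q a hc p hp hpq hd
    rw [cubZ] at hd
    have h2 := Nat.dvd_gcd (Int.natCast_dvd_natCast.1 hd) hpq
    rw [hc] at h2
    exact hp.one_lt.ne' (Nat.dvd_one.1 h2)
  filter_upwards [h1] with X hX N M q hN hM hMX hq hqX
  have h3 := hX N M q hN hM hMX hq hqX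
  simp only [hlf, hpc] at h3
  refine le_trans ?_ h3
  norm_cast
  apply card_le_card
  intro a ha
  rw [mem_filter] at ha ⊢
  refine ⟨ha.1, by exact_mod_cast had q a ha.2.1, ?_⟩
  exact ha.2.2

end Pool.Agent.Results.MP_22d6bb_nt.EveryModulusAlmostPrimes
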