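import Pool.Agent.L7h2.QS.AP

set_option autoImplicit false

/-!
# Almost primes which are differences of consecutive cubes, in residue classes, in almost all very short
intervals
-/

namespace Pool.Agent.Results.MP_22d6bb_nt.ShortIntervalProgressions

open Finset Filter

/-- With `k = u n + v`, the difference `(k + 1) ^ 3 - k ^ 3` of consecutive cubes is (up to the sign) a product
of at most `r` primes, counted with multiplicity, all of them at least `w`. -/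
def AlmostCuban (u : ℕ) (v : ℤ) (r : ℕ) (w : ℝ) (n : ℕ) : Prop :=
  ((u * n + v + 1) ^ 3 - (u * n + v) ^ 3 : ℤ).natAbs.primeFactorsList.length ≤ r ∧
    ∀ p : ℕ, p.Prime → (p : ℤ) ∣ (u * n + v + 1) ^ 3 - (u * n + v) ^ 3 → w ≤ p

open Classical in
/-- The number of the `n` in `(M, M + H]` that are terms of an `l`-term arithmetic progression with
difference at most `D`, contained in `(M, M + H]`, all terms `m` of which give, with `k = u m + v`, a
difference `(k + 1) ^ 3 - k ^ 3` which is a product of at most `r` primes, all of them at least `w`. -/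
noncomputable def inProgressions (u : ℕ) (v : ℤ) (r : ℕ) (w : ℝ) (l : ℕ) (D : ℝ) (M H : ℕ) : ℕ :=
  ((Ioc M (M + H)).filter (fun n : ℕ => ∃ y d : ℕ, 1 ≤ d ∧ (d : ℝ) ≤ D ∧
    (∀ i < l, AlmostCuban u v r w (y + i * d) ∧ M < y + i * d ∧ y + i * d ≤ M + H) ∧
    ∃ i < l, n = y + i * d)).card

open Classical in
/-- **Progressions of almost primes `(k + 1) ^ 3 - k ^ 3`, with `k` in a residue class, in almost all short
intervals.** Let `u ≥ 1` and `v` be integers with `3 v ^ 2 + 3 v + 1` coprime to `u`. Let `r = 5`,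
`1 / 2 ≤ t < 1`, `z = 2 t / 5`, or `r = 4`, `269 / 500 ≤ t < 1`, `z = t / 4`, or `r = 3`, `29 / 40 ≤ t < 1`,
`z = t / 4`. Let `0 < h ≤ t`, `ε > 0` and `l ≥ 2`. There are `δ > 0` and `E` such that, for all large `X` and
all but at most `X ^ (2 t - h + ε)` of the integers `1 ≤ M ≤ X`, the interval `(M, M + X ^ h]` contains at
least `δ X ^ h / log X` integers that are terms of `l`-term arithmetic progressions in this interval, with
difference at most `(log X) ^ E`, of integers `m` such that with `k = u m + v` the number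
`(k + 1) ^ 3 - k ^ 3` is a product of at most `r` primes, all of them at least `X ^ z`. -/
theorem result (u : ℕ) (v : ℤ) (hu : 1 ≤ u) (huv : IsCoprime (u : ℤ) (3 * v ^ 2 + 3 * v + 1))
    (r : ℕ) (t z : ℝ)
    (hpar : (r = 5 ∧ 1 / 2 ≤ t ∧ z = 2 / 5 * t) ∨ (r = 4 ∧ 269 / 500 ≤ t ∧ z = t / 4) ∨
      (r = 3 ∧ 29 / 40 ≤ t ∧ z = t / 4)) (ht : t < 1) (h ε : ℝ) (hh : 0 < h) (hht : h ≤ t)
    (hε : 0 < ε) (l : ℕ) (hl : 2 ≤ l) :
    ∃ δ : ℝ, 0 < δ ∧ ∃ E : ℕ, ∀ᶠ X : ℕ in atTop,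
      (((Icc 1 X).filter (fun M : ℕ =>
        (inProgressions u v r ((X : ℝ) ^ z) l (Real.log X ^ E) M ⌊(X : ℝ) ^ h⌋₊ : ℝ) <
        δ * ((X : ℝ) ^ h / Real.log X))).card : ℝ) ≤ (X : ℝ) ^ (2 * t - h + ε) := by
  have hu0 : (u : ℤ) ≠ 0 := by exact_mod_cast (by omega : u ≠ 0)
  set a : ℤ := 3 * (u : ℤ) ^ 2 with ha
  set b : ℤ := 3 * u * (2 * v + 1) with hb
  set c : ℤ := 3 * v ^ 2 + 3 * v + 1 with hc
  have hdisc : b ^ 2 - 4 * a * c = -3 * (u : ℤ) ^ 2 := by
    rw [ha, hb, hc]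
    ring
  have ha0 : 0 < a := by positivity
  have hQ : Pool.Agent.L7h2.QS.Adm a b c := by
    refine ⟨ha0.ne', ?_, ?_, ?_⟩
    · rintro p hp ⟨h1, h2, h3⟩
      have hpZ : Prime (p : ℤ) := Nat.prime_iff_prime_int.1 hp
      rcases hpZ.dvd_or_dvd h1 with h4 | h4
      · have h5 : (p : ℤ) ∣ 1 := by
          have e : (1 : ℤ) = c - 3 * (v ^ 2 + v) := by rw [hc]; ring
          rw [e]
          exact dvd_sub h3 (h4.mul_right _)
        exact hpZ.not_dvd_one h5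
      · have h5 : (p : ℤ) ∣ u := hpZ.dvd_of_dvd_pow h4
        exact hpZ.not_isUnit (huv.isUnit_of_dvd' h5 h3)
    · rintro ⟨-, h2⟩
      have e : c = 3 * (v * (v + 1)) + 1 := by rw [hc]; ring
      have h3 : (2 : ℤ) ∣ v * (v + 1) := (Int.even_mul_succ_self v).two_dvd
      rw [e] at h2
      omega
    · rw [hdisc]
      rintro ⟨r, hr⟩
      nlinarith [mul_self_nonneg r, (by positivity : (0 : ℤ) < (u : ℤ) ^ 2)]
  obtain ⟨δ, hδ, E, hE⟩ := Pool.Agent.L7h2.QS.mainAP hQ ha0 r t z hpar ht h ε hh hht hε l hl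
  refine ⟨δ, hδ, E, ?_⟩
  filter_upwards [hE] with X hX
  refine le_trans ?_ hX
  norm_cast
  apply card_le_card
  intro M hM
  rw [mem_filter] at hM ⊢
  refine ⟨hM.1, lt_of_le_of_lt ?_ hM.2⟩
  norm_cast
  unfold Pool.Agent.L7h2.QS.cntG inProgressions
  apply card_le_card
  have e0 : ∀ x : ℤ, (u * x + v + 1) ^ 3 - (u * x + v) ^ 3 = a * x ^ 2 + b * x + c := fun x => by
    rw [ha, hb, hc]
    ring
  have key : ∀ m : ℕ, m ∈ Pool.Agent.L7h2.QS.gsetG a b c r ((X : ℝ) ^ z) M ⌊(X : ℝ) ^ h⌋₊ →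
      AlmostCuban u v r ((X : ℝ) ^ z) m ∧ M < m ∧ m ≤ M + ⌊(X : ℝ) ^ h⌋₊ := by
    intro m hm
    unfold Pool.Agent.L7h2.QS.gsetG at hm
    rw [mem_filter, mem_Ioc] at hm
    refine ⟨?_, hm.1⟩
    unfold AlmostCuban
    rw [e0]
    exact ⟨hm.2.1, hm.2.2⟩
  intro n hn
  rw [mem_filter] at hn ⊢
  have hn1 := key n hn.1
  refine ⟨mem_Ioc.2 hn1.2, ?_⟩
  obtain ⟨y, d, h1, h2, h3, h4⟩ := hn.2
  exact ⟨y, d, h1, h2, fun i hi => key _ (h3 i hi).1, h4⟩

end Pool.Agent.Results.MP_22d6bb_nt.ShortIntervalProgressions
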